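import Pool.Agent.Helper88_SA.StmtN

/-! Squad SA, modules INTPASS and INTQ (helper48). -/

namespace SA.H48

open SA

theorem pass1 : ∀ i < 9, pass Dt (15 + (i : ℕ)) ≤ 9100000 := by decide +kernel

theorem pass2 : ∀ i < 9, pass (fun c => drt c * Dt c) (15 + (i : ℕ)) ≤ 27 * 10 ^ 12 := by
  decide +kernel

theorem dt1 : ∀ i < 71, pk DtN 24 i ≤ 2000000 := by decide +kernel

theorem dm1 : ∀ i < 71, pk dmN 4 i ≤ 9 := by decide +kernel

theorem kc1 : ∀ i < 71, ∀ d < 10, d + 1 ≤ pk dmN 4 i → 0 < pk kcN 48 (71 * d + i) := by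
  decide +kernel

/-- N9d -/
theorem intPass : IntPassStmt := by
  refine ⟨?_, ?_, ?_, ?_, ?_⟩
  · intro c h1 h2
    obtain ⟨i, rfl⟩ : ∃ i : ℕ, c = 15 + (i : ℕ) := ⟨(c - 15).toNat, by omega⟩
    exact pass1 i (by omega)
  · intro c h1 h2
    obtain ⟨i, rfl⟩ : ∃ i : ℕ, c = 15 + (i : ℕ) := ⟨(c - 15).toNat, by omega⟩
    exact pass2 i (by omega)
  · intro c
    unfold Dt
    split_ifs with h
    · exact dt1 _ (by omega)
    · norm_num
  · intro c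
    unfold dmt
    split_ifs with h
    · exact dm1 _ (by omega)
    · norm_num
  · intro c h1 h2 d hd1 hd2
    have h3 : dmt c = pk dmN 4 (c + 47).toNat := by
      unfold dmt
      rw [if_pos ⟨h1, h2⟩]
    have h4 := dm1 (c + 47).toNat (by omega)
    have h5 : kct d c = pk kcN 48 (71 * (d - 1) + (c + 47).toNat) := by
      unfold kct
      rw [if_pos ⟨hd1, by omega, h1, h2⟩]
    rw [h5]
    exact kc1 (c + 47).toNat (by omega) (d - 1) (by omega) (by omega)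

theorem q1 : ∀ q : ℕ, q ≤ 25 → 10 ^ 15 * qelo q + 10 ^ 12 ≤
    - (8 * (q : ℤ) * 48855782394283 * 1000 - 10 ^ 15 * qF q) - 28 * 10 ^ 13 * ((q : ℤ) + 1) := by
  decide +kernel

theorem q2 : ∀ q : ℕ, q ≤ 25 → 10 ^ 15 - (8 * (q : ℤ) * 48855782394283 * 1000 - 10 ^ 15 * qF q)
    + 28 * 10 ^ 13 * ((q : ℤ) + 1) + 10 ^ 12 ≤ 10 ^ 15 * (qehi q + 1) := by
  decide +kernel

/-- N9h -/
theorem intQ : IntQStmt := by
  refine ⟨?_, ?_⟩
  · intro q hq
    have h := q1 q hq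
    have h' : ((10 ^ 15 * qelo q + 10 ^ 12 : ℤ) : ℝ) ≤
      ((- (8 * (q : ℤ) * 48855782394283 * 1000 - 10 ^ 15 * qF q)
        - 28 * 10 ^ 13 * ((q : ℤ) + 1) : ℤ) : ℝ) := by exact_mod_cast h
    push_cast at h'
    linarith
  · intro q hq
    have h := q2 q hq
    have h' : ((10 ^ 15 - (8 * (q : ℤ) * 48855782394283 * 1000 - 10 ^ 15 * qF q)
      + 28 * 10 ^ 13 * ((q : ℤ) + 1) + 10 ^ 12 : ℤ) : ℝ) ≤
      ((10 ^ 15 * (qehi q + 1) : ℤ) : ℝ) := by exact_mod_cast h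
    push_cast at h'
    linarith

end SA.H48
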