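import Pool.Agent.Helper88_SA.StmtP

/-! Squad SA, module MSTEP (helper48): the modes in one step. -/

namespace SA.H48

open SA

theorem mstep (hA : AlgA) : MstepStmt := by
  intro T x0 z th hC n hV
  have hT : T ≠ 0 := by have := hC.nr.T_lo; intro h; rw [h] at this; norm_num at this
  have hx0 : x0 ≠ 0 := by have := hC.nr.x0_lo; intro h; rw [h] at this; norm_num at this
  have hx1 : x0 ≠ 1 := by have := hC.nr.x0_lo; intro h; rw [h] at this; norm_num at this
  have hz0 : z ≠ 0 := by have := hC.nr.z_lo; intro h; rw [h] at this; norm_num at this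
  have hz1 : z ≠ 1 := by have := hC.nr.z_hi; intro h; rw [h] at this; norm_num at this
  have ht0 : th ≠ 0 := norm_pos_iff.mp hC.nr.th_pos
  have ht1 : th ≠ 1 := by
    intro h
    have := hC.nr.omg_enc
    rw [h] at this
    unfold omg at this
    rw [Complex.arg_one] at this
    norm_num at this
  have m1 := hA.modr T x0 n hT hx0 hx1 hC.rt.x0_root hV
  have m2 := hA.modr T z n hT hz0 hz1 hC.rt.z_root hV
  have m3 := hA.modc T th n hT ht0 ht1 hC.rt.th_root hV
  refine ⟨?_, ?_, ?_⟩
  · unfold Cn
    rw [mul_left_comm, m1, mul_add, Finset.mul_sum, Finset.mul_sum]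
    congr 1
    refine Finset.sum_congr rfl fun d _ => ?_
    unfold cdc
    field_simp
  · unfold zn
    rw [mul_left_comm, m2, mul_add, Finset.mul_sum, Finset.mul_sum]
    congr 1
    refine Finset.sum_congr rfl fun d _ => ?_
    unfold zec
    field_simp
  · unfold Zn
    rw [mul_left_comm, m3, mul_add, Finset.mul_sum, Finset.mul_sum]
    congr 1
    refine Finset.sum_congr rfl fun d _ => ?_
    unfold zdc
    field_simp

end SA.H48
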