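import Pool.Agent.Helper88_SA.StmtN

/-! Squad SA, module NUMCELL (helper48): effect of the pauses on amplitude and phase, cell by cell.

The enclosures of cos and sin at the ends of the cells (scale 10^18) are proved here; inside a cell
concavity of `Re (z e^{-i w phi})` is used. -/

namespace SA.H48

open SA

/-- cos (n w0 / 8), scale 10^18 -/
def CE : List ℤ := [1000000000000000000, 999870786327899124, 999483178703942610, 998837277296539312, 
   997933249024274559, 996771327512773836, 995351813034327532, 993675072430292368, 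
   991741539016289559, 989551712470224211, 987106158703154887, 984405509713046713, 
   981450463421445824, 978241783493117351, 974780299138693566, 971066904900383179, 
   967102560420797170, 962888290194950899, 958425183305506581, 953714393141324542, 
   948757137099396005, 943554696270234413, 938108415106806614, 932419701077089446, 
   926490024300341535, 920320917167184269, 913913973943590166, 907270850358880952, 
   900393263177841827, 893282989757062502, 885941867585619658, 878371793810219522, 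
   870574724744923281, 862552675365582038, 854307718789111952, 845841985737744137, 
   837157663988387780, 828256997807248762, 819142287369849899, 809815888166602697, 
   800280210394084216, 790537718332176373, 780590929707228632, 770442415041408674, 
   760094796988409182, 749550749655682404, 738812997913377676, 727884316690160459]

/-- sin (n w0 / 8), scale 10^18 -/
def SE : List ℤ := [0, 16075156236525192, 32146158213116551, 48208852743414605, 
   64259088787931164, 80292718526791434, 96305598431644087, 112293590336462289, 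
   128252562506958960, 144178390708339888, 160066959271118777, 175914162154718780, 
   191715904008585664, 207468101230538370, 223166683022083488, 238807592440420895, 
   254386787446868709, 269900241951436613, 285343946853277597, 300713911076749242, 
   316006162602816801, 331216749495531527, 346341740923318986, 361377228174813420, 
   376319325668975646, 391164171959233444, 405907930731384940, 420546791795007095, 
   435076972068113099, 449494716554804200, 463796299315663324, 477978024430639700, 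
   492036226954175665, 505967273862328812, 519767564991644716, 533433533969537618, 
   546961649135938617, 560348414455973204, 573590370423432272, 586684094954803112, 
   599626204273629374, 612413353784971424, 625042238939741135, 637509596088687732, 
   649812203325813998, 661946881321004884, 673910494141653350, 685699950063071098]

/-- upper bounds of the norms of the kicks, scale 10^16 -/
def nzL : List ℤ := [0, 6447880695308, 12520792949957, 18208437560891, 
   23502912077563, 28398646393619, 32892328894140, 36982824010554, 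
   40671082030286, 43960042001009, 46854528559772]

def Cn' (n : ℕ) : ℤ := CE.getD n 0
def Sn' (n : ℕ) : ℤ := SE.getD n 0

theorem step_chk : ∀ n < 47, |Cn' n * Cn' 1 - Sn' n * Sn' 1 - 10 ^ 18 * Cn' (n + 1)| ≤ 2 * 10 ^ 18 ∧
    |Cn' n * Sn' 1 + Sn' n * Cn' 1 - 10 ^ 18 * Sn' (n + 1)| ≤ 2 * 10 ^ 18 ∧
    |Cn' n| ≤ 10 ^ 18 ∧ |Sn' n| ≤ 10 ^ 18 := by
  decide +kernel

/-- the angle of one cell for the central value of omega -/
noncomputable def xx : ℝ := 128606789191749 / (8 * 10 ^ 15)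

theorem xx_lo : (0.016075848 : ℝ) ≤ xx := by unfold xx; norm_num
theorem xx_hi : xx ≤ (0.016075849 : ℝ) := by unfold xx; norm_num
theorem xx_pos : 0 < xx := by unfold xx; norm_num

theorem base : |Real.cos xx - (Cn' 1 : ℝ) / 10 ^ 18| ≤ 1 / 10 ^ 18 * 2 ∧
    |Real.sin xx - (Sn' 1 : ℝ) / 10 ^ 18| ≤ 1 / 10 ^ 18 * 2 := by
  have hx : ‖(xx : ℂ) * Complex.I‖ ≤ 1 := by
    rw [norm_mul, Complex.norm_I, mul_one, Complex.norm_real, Real.norm_of_nonneg xx_pos.le]
    linarith [xx_hi]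
  have h := Complex.exp_bound hx (n := 8) (by norm_num)
  have hn : ‖(xx : ℂ) * Complex.I‖ = xx := by
    rw [norm_mul, Complex.norm_I, mul_one, Complex.norm_real, Real.norm_of_nonneg xx_pos.le]
  rw [hn] at h
  have e1 : Complex.exp ((xx : ℂ) * Complex.I) = Complex.mk (Real.cos xx) (Real.sin xx) := by
    rw [Complex.exp_mul_I]
    apply Complex.ext
    · simp [Complex.cos_ofReal_re, Complex.sin_ofReal_im]
    · simp [Complex.cos_ofReal_im, Complex.sin_ofReal_re]
  have e2 : ∑ m ∈ Finset.range 8, ((xx : ℂ) * Complex.I) ^ m / (m.factorial : ℂ) =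
      Complex.mk (1 - xx ^ 2 / 2 + xx ^ 4 / 24 - xx ^ 6 / 720)
        (xx - xx ^ 3 / 6 + xx ^ 5 / 120 - xx ^ 7 / 5040) := by
    have hI2 : Complex.I ^ 2 = -1 := Complex.I_sq
    have hI3 : Complex.I ^ 3 = -Complex.I := by rw [pow_succ, hI2]; ring
    have hI4 : Complex.I ^ 4 = 1 := by rw [pow_succ, hI3]; simp
    have hI5 : Complex.I ^ 5 = Complex.I := by rw [pow_succ, hI4]; ring
    have hI6 : Complex.I ^ 6 = -1 := by rw [pow_succ, hI5]; simp
    have hI7 : Complex.I ^ 7 = -Complex.I := by rw [pow_succ, hI6]; ring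
    rw [Complex.mk_eq_add_mul_I]
    simp only [Finset.sum_range_succ, Finset.sum_range_zero, mul_pow, hI2, hI3, hI4, hI5, hI6, hI7,
      Nat.factorial]
    push_cast
    ring
  rw [e1, e2] at h
  have hb : xx ^ 8 * ((Nat.succ 8 : ℝ) * ((Nat.factorial 8 : ℝ) * (8 : ℕ))⁻¹) ≤ 1 / 10 ^ 18 := by
    have h8 : xx ^ 8 ≤ (0.0160759 : ℝ) ^ 8 :=
      pow_le_pow_left₀ xx_pos.le (by linarith [xx_hi]) 8
    have : (Nat.factorial 8 : ℝ) = 40320 := by norm_num [Nat.factorial]
    rw [this]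
    calc xx ^ 8 * ((Nat.succ 8 : ℝ) * ((40320 : ℝ) * (8 : ℕ))⁻¹)
        ≤ (0.0160759 : ℝ) ^ 8 * ((Nat.succ 8 : ℝ) * ((40320 : ℝ) * (8 : ℕ))⁻¹) := by
          apply mul_le_mul_of_nonneg_right h8
          positivity
      _ ≤ 1 / 10 ^ 18 := by norm_num
  have h' := h.trans hb
  have hre := (Complex.abs_re_le_norm _).trans h'
  have him := (Complex.abs_im_le_norm _).trans h'
  simp only [Complex.sub_re, Complex.sub_im] at hre him
  have c1 : |(1 - xx ^ 2 / 2 + xx ^ 4 / 24 - xx ^ 6 / 720) - (Cn' 1 : ℝ) / 10 ^ 18| ≤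
      1 / 10 ^ 18 := by
    have : (Cn' 1 : ℝ) = 999870786327899124 := by
      have : Cn' 1 = 999870786327899124 := by decide +kernel
      rw [this]; norm_num
    rw [this, abs_le]
    unfold xx
    constructor <;> norm_num
  have c2 : |(xx - xx ^ 3 / 6 + xx ^ 5 / 120 - xx ^ 7 / 5040) - (Sn' 1 : ℝ) / 10 ^ 18| ≤
      1 / 10 ^ 18 := by
    have : (Sn' 1 : ℝ) = 16075156236525192 := by
      have : Sn' 1 = 16075156236525192 := by decide +kernel
      rw [this]; norm_num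
    rw [this, abs_le]
    unfold xx
    constructor <;> norm_num
  constructor
  · rw [abs_le] at *
    constructor <;> linarith [hre.1, hre.2, c1.1, c1.2]
  · rw [abs_le] at *
    constructor <;> linarith [him.1, him.2, c2.1, c2.2]

/-- growth of the errors -/
theorem tabE0 : ∀ n : ℕ, n ≤ 47 →
    |Real.cos (n * xx) - (Cn' n : ℝ) / 10 ^ 18| ≤ 6 / 10 ^ 18 * (n * (1.0161 : ℝ) ^ n) ∧
    |Real.sin (n * xx) - (Sn' n : ℝ) / 10 ^ 18| ≤ 6 / 10 ^ 18 * (n * (1.0161 : ℝ) ^ n) := by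
  intro n
  induction n with
  | zero =>
    intro _
    have h0 : Cn' 0 = 10 ^ 18 := by decide +kernel
    have h1 : Sn' 0 = 0 := by decide +kernel
    rw [h0, h1]
    norm_num
  | succ n ih =>
    intro hn
    obtain ⟨ha, hb⟩ := ih (by omega)
    obtain ⟨k1, k2, k3, k4⟩ := step_chk n (by omega)
    obtain ⟨b1, b2⟩ := base
    set c := (Cn' n : ℝ) / 10 ^ 18 with hc
    set s := (Sn' n : ℝ) / 10 ^ 18 with hs
    set c1 := (Cn' 1 : ℝ) / 10 ^ 18 with hc1
    set s1 := (Sn' 1 : ℝ) / 10 ^ 18 with hs1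
    set c' := (Cn' (n + 1) : ℝ) / 10 ^ 18 with hc'
    set s' := (Sn' (n + 1) : ℝ) / 10 ^ 18 with hs'
    set M : ℝ := 6 / 10 ^ 18 * (n * (1.0161 : ℝ) ^ n) with hM
    have hM0 : 0 ≤ M := by positivity
    have r1 : |c * c1 - s * s1 - c'| ≤ 2 / 10 ^ 18 := by
      have h : |(Cn' n : ℝ) * Cn' 1 - Sn' n * Sn' 1 - 10 ^ 18 * Cn' (n + 1)| ≤ 2 * 10 ^ 18 := by
        exact_mod_cast k1
      have e : c * c1 - s * s1 - c' =
          ((Cn' n : ℝ) * Cn' 1 - Sn' n * Sn' 1 - 10 ^ 18 * Cn' (n + 1)) / 10 ^ 36 := by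
        rw [hc, hc1, hs, hs1, hc']
        field_simp
      rw [e, abs_div, abs_of_pos (show (0 : ℝ) < 10 ^ 36 by positivity),
        div_le_iff₀ (by positivity)]
      calc _ ≤ (2 : ℝ) * 10 ^ 18 := h
        _ = 2 / 10 ^ 18 * 10 ^ 36 := by norm_num
    have r2 : |c * s1 + s * c1 - s'| ≤ 2 / 10 ^ 18 := by
      have h : |(Cn' n : ℝ) * Sn' 1 + Sn' n * Cn' 1 - 10 ^ 18 * Sn' (n + 1)| ≤ 2 * 10 ^ 18 := by
        exact_mod_cast k2
      have e : c * s1 + s * c1 - s' =
          ((Cn' n : ℝ) * Sn' 1 + Sn' n * Cn' 1 - 10 ^ 18 * Sn' (n + 1)) / 10 ^ 36 := by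
        rw [hc, hc1, hs, hs1, hs']
        field_simp
      rw [e, abs_div, abs_of_pos (show (0 : ℝ) < 10 ^ 36 by positivity),
        div_le_iff₀ (by positivity)]
      calc _ ≤ (2 : ℝ) * 10 ^ 18 := h
        _ = 2 / 10 ^ 18 * 10 ^ 36 := by norm_num
    have cle : |c| ≤ 1 := by
      have h : |(Cn' n : ℝ)| ≤ 10 ^ 18 := by exact_mod_cast k3
      rw [hc, abs_div, abs_of_pos (show (0 : ℝ) < 10 ^ 18 by positivity), div_le_one (by positivity)]
      exact h
    have sle : |s| ≤ 1 := by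
      have h : |(Sn' n : ℝ)| ≤ 10 ^ 18 := by exact_mod_cast k4
      rw [hs, abs_div, abs_of_pos (show (0 : ℝ) < 10 ^ 18 by positivity), div_le_one (by positivity)]
      exact h
    have cx : |Real.cos xx| ≤ 1 := Real.abs_cos_le_one _
    have sx : |Real.sin xx| ≤ 0.0161 := by
      rw [abs_le]
      have h1 := Real.sin_le xx_pos.le
      have h2 := Real.sin_nonneg_of_nonneg_of_le_pi xx_pos.le (by
        have := Real.pi_gt_three
        linarith [xx_hi])
      constructor <;> linarith [xx_hi]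
    have grow : (1.0161 : ℝ) * M + 6 / 10 ^ 18 ≤
        6 / 10 ^ 18 * (((n + 1 : ℕ) : ℝ) * (1.0161 : ℝ) ^ (n + 1)) := by
      have h1 : (1 : ℝ) ≤ (1.0161 : ℝ) ^ (n + 1) := one_le_pow₀ (by norm_num)
      rw [pow_succ] at h1
      have h2 : 6 / 10 ^ 18 * (((n + 1 : ℕ) : ℝ) * (1.0161 : ℝ) ^ (n + 1)) -
          ((1.0161 : ℝ) * M + 6 / 10 ^ 18) = 6 / 10 ^ 18 * ((1.0161 : ℝ) ^ n * 1.0161 - 1) := by
        rw [hM, pow_succ]
        push_cast
        ring
      have h3 : 0 ≤ 6 / 10 ^ 18 * ((1.0161 : ℝ) ^ n * 1.0161 - 1) :=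
        mul_nonneg (by positivity) (by linarith)
      linarith
    have mulb : ∀ a b A B : ℝ, |a| ≤ A → |b| ≤ B → |a * b| ≤ A * B := by
      intro a b A B h1 h2
      rw [abs_mul]
      exact mul_le_mul h1 h2 (abs_nonneg _) ((abs_nonneg _).trans h1)
    have e1 : Real.cos (((n + 1 : ℕ) : ℝ) * xx) = Real.cos (n * xx) * Real.cos xx -
        Real.sin (n * xx) * Real.sin xx := by
      rw [← Real.cos_add]; congr 1; push_cast; ring
    have e2 : Real.sin (((n + 1 : ℕ) : ℝ) * xx) = Real.sin (n * xx) * Real.cos xx +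
        Real.cos (n * xx) * Real.sin xx := by
      rw [← Real.sin_add]; congr 1; push_cast; ring
    have p1 := mulb _ _ _ _ ha cx
    have p2 := mulb _ _ _ _ hb sx
    have p3 := mulb _ _ _ _ cle b1
    have p4 := mulb _ _ _ _ sle b2
    have p5 := mulb _ _ _ _ hb cx
    have p6 := mulb _ _ _ _ ha sx
    have p7 := mulb _ _ _ _ cle b2
    have p8 := mulb _ _ _ _ sle b1
    constructor
    · rw [e1]
      refine le_trans ?_ grow
      have e : Real.cos (n * xx) * Real.cos xx - Real.sin (n * xx) * Real.sin xx - c' =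
          (Real.cos (n * xx) - c) * Real.cos xx - (Real.sin (n * xx) - s) * Real.sin xx +
          c * (Real.cos xx - c1) - s * (Real.sin xx - s1) + (c * c1 - s * s1 - c') := by ring
      rw [e]
      rw [abs_le] at *
      constructor <;> linarith [p1.1, p1.2, p2.1, p2.2, p3.1, p3.2, p4.1, p4.2, r1.1, r1.2]
    · rw [e2]
      refine le_trans ?_ grow
      have e : Real.sin (n * xx) * Real.cos xx + Real.cos (n * xx) * Real.sin xx - s' =
          (Real.sin (n * xx) - s) * Real.cos xx + (Real.cos (n * xx) - c) * Real.sin xx +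
          c * (Real.sin xx - s1) + s * (Real.cos xx - c1) + (c * s1 + s * c1 - s') := by ring
      rw [e]
      rw [abs_le] at *
      constructor <;> linarith [p5.1, p5.2, p6.1, p6.2, p7.1, p7.2, p8.1, p8.2, r2.1, r2.2]

/-- cos and sin at the cell ends, integer index -/
def Ce (e : ℤ) : ℤ := Cn' e.natAbs
def Se (e : ℤ) : ℤ := if 0 ≤ e then Sn' e.natAbs else -Sn' e.natAbs

theorem tabE (e : ℤ) (h1 : -47 ≤ e) (h2 : e ≤ 24) :
    |Real.cos (e * xx) - (Ce e : ℝ) / 10 ^ 18| ≤ 1 / 10 ^ 15 ∧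
    |Real.sin (e * xx) - (Se e : ℝ) / 10 ^ 18| ≤ 1 / 10 ^ 15 := by
  have hn : e.natAbs ≤ 47 := by omega
  obtain ⟨ha, hb⟩ := tabE0 e.natAbs hn
  have hM : (6 : ℝ) / 10 ^ 18 * ((e.natAbs : ℝ) * (1.0161 : ℝ) ^ e.natAbs) ≤ 1 / 10 ^ 15 := by
    have h3 : (1.0161 : ℝ) ^ e.natAbs ≤ (1.0161 : ℝ) ^ 47 := pow_le_pow_right₀ (by norm_num) hn
    have h4 : (e.natAbs : ℝ) ≤ 47 := by exact_mod_cast hn
    have h5 : (e.natAbs : ℝ) * (1.0161 : ℝ) ^ e.natAbs ≤ 47 * (1.0161 : ℝ) ^ 47 :=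
      mul_le_mul h4 h3 (by positivity) (by norm_num)
    calc (6 : ℝ) / 10 ^ 18 * ((e.natAbs : ℝ) * (1.0161 : ℝ) ^ e.natAbs)
        ≤ 6 / 10 ^ 18 * (47 * (1.0161 : ℝ) ^ 47) :=
          mul_le_mul_of_nonneg_left h5 (by positivity)
      _ ≤ 1 / 10 ^ 15 := by norm_num
  rcases le_total 0 e with he | he
  · have e1 : ((e.natAbs : ℕ) : ℝ) = (e : ℝ) := by
      rw [Nat.cast_natAbs, abs_of_nonneg he]
    rw [e1] at ha hb
    rw [e1] at hM
    unfold Ce Se
    rw [if_pos he]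
    exact ⟨ha.trans hM, hb.trans hM⟩
  · have e1 : ((e.natAbs : ℕ) : ℝ) = -(e : ℝ) := by
      rw [Nat.cast_natAbs, abs_of_nonpos he]
      push_cast
      ring
    rw [e1, neg_mul, Real.cos_neg] at ha
    rw [e1, neg_mul, Real.sin_neg] at hb
    rw [e1] at hM
    refine ⟨ha.trans hM, ?_⟩
    rcases eq_or_lt_of_le he with h0 | h0
    · subst h0
      have : Se 0 = 0 := by decide +kernel
      rw [this]
      norm_num
    · unfold Se
      rw [if_neg (by omega)]
      refine le_trans (le_of_eq ?_) (hb.trans hM)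
      rw [← abs_neg]
      congr 1
      push_cast
      ring

/-- concavity between two angles -/
theorem conc (p q m θ a b : ℝ) (ha : 0 ≤ a) (hb : 0 ≤ b) (hab : a + b ≤ 1) (hm : 0 ≤ m)
    (h1 : m ≤ p * Real.cos (θ - a) + q * Real.sin (θ - a))
    (h2 : m ≤ p * Real.cos (θ + b) + q * Real.sin (θ + b)) :
    m ≤ p * Real.cos θ + q * Real.sin θ := by
  have hpi := Real.pi_gt_three
  rcases eq_or_lt_of_le (add_nonneg ha hb) with h0 | h0
  · have ha0 : a = 0 := by linarith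
    rw [ha0, sub_zero] at h1
    exact h1
  · have hs : 0 < Real.sin (a + b) := Real.sin_pos_of_pos_of_lt_pi h0 (by linarith)
    have hsa : 0 ≤ Real.sin a := Real.sin_nonneg_of_nonneg_of_le_pi ha (by linarith)
    have hsb : 0 ≤ Real.sin b := Real.sin_nonneg_of_nonneg_of_le_pi hb (by linarith)
    have id : Real.sin (a + b) * (p * Real.cos θ + q * Real.sin θ) =
        Real.sin b * (p * Real.cos (θ - a) + q * Real.sin (θ - a)) +
        Real.sin a * (p * Real.cos (θ + b) + q * Real.sin (θ + b)) := by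
      rw [Real.sin_add a b, Real.cos_sub, Real.sin_sub, Real.cos_add, Real.sin_add θ b]
      ring
    have sub : Real.sin (a + b) ≤ Real.sin a + Real.sin b := by
      rw [Real.sin_add]
      have h3 := Real.cos_le_one a
      have h4 := Real.cos_le_one b
      nlinarith
    have h5 : m * Real.sin (a + b) ≤ Real.sin (a + b) * (p * Real.cos θ + q * Real.sin θ) := by
      rw [id]
      have h6 := mul_le_mul_of_nonneg_left h1 hsb
      have h7 := mul_le_mul_of_nonneg_left h2 hsa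
      have h8 := mul_le_mul_of_nonneg_left sub hm
      linarith
    rw [mul_comm (Real.sin (a + b))] at h5
    exact le_of_mul_le_mul_right h5 hs

def zR (d : ℕ) : ℤ := ztRe.getD d 0
def zI (d : ℕ) : ℤ := ztIm.getD d 0
def nz (d : ℕ) : ℤ := nzL.getD d 0
def cd (d : ℕ) : ℤ := cT.getD d 0

theorem nz_chk : ∀ d < 11, 0 ≤ nz d ∧ zR d * zR d + zI d * zI d ≤ nz d * nz d ∧ 0 ≤ cd d ∧
    (10004 * (nz d + 100) ≤ zm d * 10 ^ 6 ∨ d = 0) := by decide +kernel

def kineq (d k : ℕ) (e : ℤ) : Prop :=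
  (k : ℤ) * 10 ^ 20 + 107 * (cd d + 1000) * 10 ^ 14 + nz d * 10 ^ 15 + 10 ^ 17 + 2 * 10 ^ 20
    + (|zR d| + |zI d|) * (6 * 10 ^ 6 + 10 ^ 3) ≤ zR d * Ce e + zI d * Se e

instance (d k : ℕ) (e : ℤ) : Decidable (kineq d k e) := by unfold kineq; infer_instance

theorem k_chk : ∀ i < 71, ∀ d < 10, d + 1 ≤ pk dmN 4 i →
    kineq (d + 1) (pk kcN 48 (71 * d + i)) ((i : ℤ) - 47) ∧
    kineq (d + 1) (pk kcN 48 (71 * d + i)) ((i : ℤ) - 46) := by
  decide +kernel

def dineq (d k : ℕ) (c s : ℤ) : Prop :=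
  ((|zI d * c - zR d * s| + 2 * 10 ^ 12 + 2 * (|zR d| + |zI d|)) * 10 ^ 3 +
    (nz d + 100) * 80379243246) * 1002 ≤ 900 * 128606789190 * 10 ^ 8 * d * k

instance (d k : ℕ) (c s : ℤ) : Decidable (dineq d k c s) := by unfold dineq; infer_instance

theorem d_chk : ∀ i < 71, ∀ d < 10,
    dineq (d + 1) (pk drN 24 i) (Ct ((i : ℤ) - 47)) (St_ ((i : ℤ) - 47)) := by
  decide +kernel

theorem norm_mk_le (a b r : ℝ) (hr : 0 ≤ r) (h : a * a + b * b ≤ r * r) :
    ‖(Complex.mk a b)‖ ≤ r := by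
  rw [Complex.norm_def, Complex.normSq_mk]
  exact Real.sqrt_le_iff.mpr ⟨hr, by rw [sq]; exact h⟩

theorem re_exp (ζ : ℂ) (θ : ℝ) : (ζ * Complex.exp (-((θ : ℂ) * Complex.I))).re =
    ζ.re * Real.cos θ + ζ.im * Real.sin θ := by
  rw [show -((θ : ℂ) * Complex.I) = ((-θ : ℝ) : ℂ) * Complex.I by push_cast; ring,
    Complex.exp_mul_I, ← Complex.ofReal_cos, ← Complex.ofReal_sin, Real.cos_neg, Real.sin_neg]
  simp [Complex.mul_re, Complex.cos_ofReal_re, Complex.sin_ofReal_re]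

theorem im_exp (ζ : ℂ) (θ : ℝ) : (ζ * Complex.exp (-((θ : ℂ) * Complex.I))).im =
    ζ.im * Real.cos θ - ζ.re * Real.sin θ := by
  rw [show -((θ : ℂ) * Complex.I) = ((-θ : ℝ) : ℂ) * Complex.I by push_cast; ring,
    Complex.exp_mul_I, ← Complex.ofReal_cos, ← Complex.ofReal_sin, Real.cos_neg, Real.sin_neg]
  simp [Complex.mul_im, Complex.cos_ofReal_re, Complex.sin_ofReal_re]
  ring

theorem norm_z (d : ℕ) (hd : d ≤ 10) :
    ‖(⟨(zR d : ℝ) / 10 ^ 16, (zI d : ℝ) / 10 ^ 16⟩ : ℂ)‖ ≤ (nz d : ℝ) / 10 ^ 16 := by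
  obtain ⟨h1, h2, _, _⟩ := nz_chk d (by omega)
  have h1' : (0 : ℝ) ≤ nz d := by exact_mod_cast h1
  have h2' : (zR d : ℝ) * zR d + zI d * zI d ≤ nz d * nz d := by exact_mod_cast h2
  apply norm_mk_le _ _ _ (by positivity)
  rw [div_mul_div_comm, div_mul_div_comm, div_mul_div_comm, ← add_div]
  exact div_le_div_of_nonneg_right h2' (by positivity)

theorem omg_eq : (8 : ℝ) * xx = 0.128606789191749 := by unfold xx; norm_num

/-- lower bound at the ends of the cells -/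
theorem end_ge (d k : ℕ) (e : ℤ) (h1 : -47 ≤ e) (h2 : e ≤ 24) (h : kineq d k e) :
    (k : ℝ) / 10 ^ 14 + 1.07 * ((cd d : ℝ) / 10 ^ 18 + 1 / 10 ^ 15) + (nz d : ℝ) / 10 ^ 16 / 10 ^ 3
      + 1 / 10 ^ 17 + 2 / 10 ^ 14 + (|(zR d : ℝ)| + |(zI d : ℝ)|) / 10 ^ 16 * (6 / 10 ^ 12) ≤
    (zR d : ℝ) / 10 ^ 16 * Real.cos (e * xx) + (zI d : ℝ) / 10 ^ 16 * Real.sin (e * xx) := by
  obtain ⟨a1, a2⟩ := tabE e h1 h2
  unfold kineq at h
  have h' : ((k : ℕ) : ℝ) * 10 ^ 20 + 107 * ((cd d : ℝ) + 1000) * 10 ^ 14 + (nz d : ℝ) * 10 ^ 15 +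
      10 ^ 17 + 2 * 10 ^ 20 + (|(zR d : ℝ)| + |(zI d : ℝ)|) * (6 * 10 ^ 6 + 10 ^ 3) ≤
      (zR d : ℝ) * (Ce e : ℝ) + (zI d : ℝ) * (Se e : ℝ) := by exact_mod_cast h
  have b1 : (zR d : ℝ) * ((Ce e : ℝ) / 10 ^ 18) - |(zR d : ℝ)| / 10 ^ 15 ≤
      (zR d : ℝ) * Real.cos (e * xx) := by
    have := mul_le_mul_of_nonneg_left a1 (abs_nonneg (zR d : ℝ))
    rw [← abs_mul] at this
    have h3 := (abs_le.mp this).1
    have e1 : (zR d : ℝ) * (Real.cos (e * xx) - (Ce e : ℝ) / 10 ^ 18) =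
        (zR d : ℝ) * Real.cos (e * xx) - (zR d : ℝ) * ((Ce e : ℝ) / 10 ^ 18) := by ring
    rw [e1] at h3
    have e2 : |(zR d : ℝ)| * (1 / 10 ^ 15) = |(zR d : ℝ)| / 10 ^ 15 := by ring
    rw [e2] at h3
    linarith
  have b2 : (zI d : ℝ) * ((Se e : ℝ) / 10 ^ 18) - |(zI d : ℝ)| / 10 ^ 15 ≤
      (zI d : ℝ) * Real.sin (e * xx) := by
    have := mul_le_mul_of_nonneg_left a2 (abs_nonneg (zI d : ℝ))
    rw [← abs_mul] at this
    have h3 := (abs_le.mp this).1
    have e1 : (zI d : ℝ) * (Real.sin (e * xx) - (Se e : ℝ) / 10 ^ 18) =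
        (zI d : ℝ) * Real.sin (e * xx) - (zI d : ℝ) * ((Se e : ℝ) / 10 ^ 18) := by ring
    rw [e1] at h3
    have e2 : |(zI d : ℝ)| * (1 / 10 ^ 15) = |(zI d : ℝ)| / 10 ^ 15 := by ring
    rw [e2] at h3
    linarith
  have e3 : (zR d : ℝ) / 10 ^ 16 * Real.cos (e * xx) + (zI d : ℝ) / 10 ^ 16 * Real.sin (e * xx) =
      ((zR d : ℝ) * Real.cos (e * xx) + (zI d : ℝ) * Real.sin (e * xx)) / 10 ^ 16 := by ring
  rw [e3, le_div_iff₀ (by positivity)]
  refine le_trans ?_ (add_le_add b1 b2)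
  have e4 : (zR d : ℝ) * ((Ce e : ℝ) / 10 ^ 18) - |(zR d : ℝ)| / 10 ^ 15 +
      ((zI d : ℝ) * ((Se e : ℝ) / 10 ^ 18) - |(zI d : ℝ)| / 10 ^ 15) =
      ((zR d : ℝ) * (Ce e : ℝ) + (zI d : ℝ) * (Se e : ℝ) -
        (|(zR d : ℝ)| + |(zI d : ℝ)|) * 10 ^ 3) / 10 ^ 18 := by ring
  rw [e4, le_div_iff₀ (by positivity)]
  refine le_trans (le_of_eq ?_) (sub_le_sub_right h' _)
  ring

/-- N8 -/
theorem numCell : NumCellStmt := by
  intro hCS T x0 z th hR hK
  have hC := hK.cE
  have hw := hR.omg_enc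
  set w := omg th with hwdef
  have hw' : |w - 8 * xx| ≤ 1 / 10 ^ 12 := by rw [omg_eq]; exact hw
  have hx0 : 0 < x0 := by linarith [hR.x0_lo]
  -- enclosures of the kicks
  have zr : ∀ d : ℕ, 1 ≤ d → d ≤ 10 → |(th * zdc T th d).re - (zR d : ℝ) / 10 ^ 16| ≤ 1 / 10 ^ 14 ∧
      |(th * zdc T th d).im - (zI d : ℝ) / 10 ^ 16| ≤ 1 / 10 ^ 14 ∧
      ‖th * zdc T th d‖ ≤ (nz d : ℝ) / 10 ^ 16 + 1 / 10 ^ 14 := by
    intro d h1 h2
    have h := hK.zd d h1 h2
    refine ⟨?_, ?_, ?_⟩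
    · have := (Complex.abs_re_le_norm _).trans h
      rw [Complex.sub_re] at this
      exact this
    · have := (Complex.abs_im_le_norm _).trans h
      rw [Complex.sub_im] at this
      exact this
    · have h3 := norm_z d h2
      have h4 := norm_sub_norm_le (th * zdc T th d)
        (⟨(zR d : ℝ) / 10 ^ 16, (zI d : ℝ) / 10 ^ 16⟩ : ℂ)
      have h5 : ‖th * zdc T th d - (⟨(zR d : ℝ) / 10 ^ 16, (zI d : ℝ) / 10 ^ 16⟩ : ℂ)‖ ≤
          1 / 10 ^ 14 := h
      linarith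
  refine ⟨?_, ?_, ?_⟩
  · -- amplitude
    intro c hc1 hc2 d hd1 hd2 φ hφ1 hφ2
    obtain ⟨i, hi, hci⟩ : ∃ i : ℕ, i < 71 ∧ c = (i : ℤ) - 47 :=
      ⟨(c + 47).toNat, by omega, by omega⟩
    obtain ⟨d', rfl⟩ : ∃ d' : ℕ, d = d' + 1 := ⟨d - 1, by omega⟩
    have hdm : dmt c = pk dmN 4 i := by
      unfold dmt
      rw [if_pos ⟨hc1, hc2⟩, show (c + 47).toNat = i by omega]
    have hdm9 : dmt c ≤ 9 := by
      rw [hdm]
      have : ∀ i < 71, pk dmN 4 i ≤ 9 := by decide +kernel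
      exact this i hi
    have hk : kct (d' + 1) c = pk kcN 48 (71 * d' + i) := by
      unfold kct
      rw [if_pos ⟨hd1, by omega, hc1, hc2⟩, show (c + 47).toNat = i by omega, Nat.add_sub_cancel]
    obtain ⟨k1, k2⟩ := k_chk i hi d' (by omega) (by rw [← hdm]; exact hd2)
    rw [← hk, ← hci] at k1
    rw [← hk, show ((i : ℤ) - 46) = c + 1 by omega] at k2
    have E1 := end_ge (d' + 1) _ c hc1 (by omega) k1
    have E2 := end_ge (d' + 1) _ (c + 1) (by omega) (by omega) k2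
    set d := d' + 1 with hd
    set k := kct d c with hkdef
    set m : ℝ := (k : ℝ) / 10 ^ 14 + 1.07 * ((cd d : ℝ) / 10 ^ 18 + 1 / 10 ^ 15) +
      (nz d : ℝ) / 10 ^ 16 / 10 ^ 3 + 1 / 10 ^ 17 + 2 / 10 ^ 14 +
      (|(zR d : ℝ)| + |(zI d : ℝ)|) / 10 ^ 16 * (6 / 10 ^ 12) with hm
    obtain ⟨n1, _, n3, _⟩ := nz_chk d (by omega)
    have n1' : (0 : ℝ) ≤ nz d := by exact_mod_cast n1
    have n3' : (0 : ℝ) ≤ cd d := by exact_mod_cast n3
    have hm0 : 0 ≤ m := by
      rw [hm]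
      positivity
    set p := (zR d : ℝ) / 10 ^ 16 with hp
    set q := (zI d : ℝ) / 10 ^ 16 with hq
    have hF := conc p q m (8 * xx * φ) (8 * xx * φ - c * xx) ((c + 1 : ℤ) * xx - 8 * xx * φ)
      (by nlinarith [xx_pos]) (by push_cast; nlinarith [xx_pos])
      (by push_cast; nlinarith [xx_pos, xx_hi]) hm0
      (by rw [show 8 * xx * φ - (8 * xx * φ - c * xx) = c * xx by ring]; exact E1)
      (by rw [show 8 * xx * φ + (((c + 1 : ℤ) : ℝ) * xx - 8 * xx * φ) =
            ((c + 1 : ℤ) : ℝ) * xx by ring]; exact E2)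
    have hφabs : |φ| ≤ 6 := by
      have c1 : (-47 : ℝ) ≤ c := by exact_mod_cast hc1
      have c2 : (c : ℝ) ≤ 23 := by
        have : c ≤ 23 := by omega
        exact_mod_cast this
      rw [abs_le]
      constructor <;> linarith
    have dlt : |w * φ - 8 * xx * φ| ≤ 6 / 10 ^ 12 := by
      rw [show w * φ - 8 * xx * φ = (w - 8 * xx) * φ by ring, abs_mul]
      calc |w - 8 * xx| * |φ| ≤ (1 / 10 ^ 12) * 6 :=
            mul_le_mul hw' hφabs (abs_nonneg _) (by positivity)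
        _ = 6 / 10 ^ 12 := by norm_num
    have dc := (Real.abs_cos_sub_cos_le (w * φ) (8 * xx * φ)).trans dlt
    have ds := (Real.abs_sin_sub_sin_le (w * φ) (8 * xx * φ)).trans dlt
    have hpq : (|(zR d : ℝ)| + |(zI d : ℝ)|) / 10 ^ 16 = |p| + |q| := by
      rw [hp, hq, abs_div, abs_div, abs_of_pos (show (0 : ℝ) < 10 ^ 16 by positivity)]
      ring
    have mulb : ∀ a b A : ℝ, |b| ≤ A → |a * b| ≤ |a| * A := by
      intro a b A h1
      rw [abs_mul]
      exact mul_le_mul_of_nonneg_left h1 (abs_nonneg _)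
    have m1 := abs_le.mp (mulb p _ _ dc)
    have m2 := abs_le.mp (mulb q _ _ ds)
    obtain ⟨zr1, zr2, zr3⟩ := zr d hd1 (by omega)
    rw [← hp] at zr1
    rw [← hq] at zr2
    set ζ := th * zdc T th d with hζ
    have mulc : ∀ a b A : ℝ, |a| ≤ A → |b| ≤ 1 → |a * b| ≤ A := by
      intro a b A h1 h2
      rw [abs_mul]
      calc |a| * |b| ≤ A * 1 := mul_le_mul h1 h2 (abs_nonneg _) ((abs_nonneg _).trans h1)
        _ = A := mul_one A
    have m3 := abs_le.mp (mulc _ _ _ zr1 (Real.abs_cos_le_one (w * φ)))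
    have m4 := abs_le.mp (mulc _ _ _ zr2 (Real.abs_sin_le_one (w * φ)))
    have hre := re_exp ζ (w * φ)
    rw [Complex.ofReal_mul] at hre
    rw [hre]
    have hcd := hC d hd1 (by omega)
    have hcd0 := (hK.cd d hd1 (by omega)).1
    have hcd2 : x0 * |cdc T x0 d| ≤ (cd d : ℝ) / 10 ^ 18 + 1 / 10 ^ 15 := by
      rw [abs_of_nonpos hcd0]
      have h6 := (abs_le.mp hcd).1
      change -(1 / 10 ^ 15) ≤ x0 * cdc T x0 d + (cd d : ℝ) / 10 ^ 18 at h6
      linarith
    rw [hpq] at hm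
    have hmul : 1.07 * x0 * |cdc T x0 d| ≤ 1.07 * ((cd d : ℝ) / 10 ^ 18 + 1 / 10 ^ 15) := by
      rw [mul_assoc]
      exact mul_le_mul_of_nonneg_left hcd2 (by norm_num)
    have hnz : ‖ζ‖ / 10 ^ 3 ≤ (nz d : ℝ) / 10 ^ 16 / 10 ^ 3 + 1 / 10 ^ 17 := by
      have := div_le_div_of_nonneg_right zr3 (show (0 : ℝ) ≤ 10 ^ 3 by positivity)
      calc ‖ζ‖ / 10 ^ 3 ≤ ((nz d : ℝ) / 10 ^ 16 + 1 / 10 ^ 14) / 10 ^ 3 := this
        _ = _ := by ring
    linarith [m1.1, m1.2, m2.1, m2.2, m3.1, m3.2, m4.1, m4.2]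
  · -- drift
    intro c hc1 hc2 d hd1 hd2 φ hφ1 hφ2
    obtain ⟨i, hi, hci⟩ : ∃ i : ℕ, i < 71 ∧ c = (i : ℤ) - 47 :=
      ⟨(c + 47).toNat, by omega, by omega⟩
    obtain ⟨d', rfl⟩ : ∃ d' : ℕ, d = d' + 1 := ⟨d - 1, by omega⟩
    have hk : drt c = pk drN 24 i := by
      unfold drt
      rw [if_pos ⟨hc1, hc2⟩, show (c + 47).toNat = i by omega]
    have k1 := d_chk i hi d' (by omega)
    rw [← hk, ← hci] at k1
    set d := d' + 1 with hd
    obtain ⟨cs1, cs2⟩ := hCS w hw c (by omega) (by omega)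
    obtain ⟨zr1, zr2, zr3⟩ := zr d hd1 hd2
    set ζ := th * zdc T th d with hζ
    set p := (zR d : ℝ) / 10 ^ 16 with hp
    set q := (zI d : ℝ) / 10 ^ 16 with hq
    set mid : ℝ := (2 * c + 1) / 16 with hmid
    have hwm : w * (2 * c + 1) / 16 = w * mid := by rw [hmid]; ring
    rw [hwm] at cs1 cs2
    have hw0 : 0.12860678919 ≤ w := by
      have := (abs_le.mp hw).1
      linarith
    have hw1 : w ≤ 0.128606789193 := by
      have := (abs_le.mp hw).2
      linarith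
    have hwpos : 0 < w := by linarith
    have δ : |φ - mid| ≤ 1 / 16 := by
      rw [hmid, abs_le]
      constructor <;> linarith
    -- from phi to the middle
    have mv : |(ζ * Complex.exp (-((w : ℂ) * φ * Complex.I))).im| ≤
        |(ζ * Complex.exp (-(((w * mid : ℝ) : ℂ) * Complex.I))).im| + ‖ζ‖ * (w / 16) := by
      have e1 : ζ * Complex.exp (-((w : ℂ) * φ * Complex.I)) =
          ζ * Complex.exp (-(((w * mid : ℝ) : ℂ) * Complex.I)) +
          ζ * Complex.exp (-(((w * mid : ℝ) : ℂ) * Complex.I)) *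
            (Complex.exp (Complex.I * ((w * (mid - φ) : ℝ) : ℂ)) - 1) := by
        rw [mul_sub, mul_one, mul_assoc ζ, ← Complex.exp_add]
        have : -(((w * mid : ℝ) : ℂ) * Complex.I) + Complex.I * ((w * (mid - φ) : ℝ) : ℂ) =
            -((w : ℂ) * φ * Complex.I) := by
          push_cast
          ring
        rw [this]
        ring
      rw [e1, Complex.add_im]
      refine (abs_add_le _ _).trans (add_le_add le_rfl ?_)
      refine (Complex.abs_im_le_norm _).trans ?_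
      rw [norm_mul, norm_mul]
      have n1 : ‖Complex.exp (-(((w * mid : ℝ) : ℂ) * Complex.I))‖ = 1 := by
        rw [show -(((w * mid : ℝ) : ℂ) * Complex.I) = ((-(w * mid) : ℝ) : ℂ) * Complex.I by
          push_cast; ring]
        exact Complex.norm_exp_ofReal_mul_I _
      have n2 : ‖Complex.exp (Complex.I * ((w * (mid - φ) : ℝ) : ℂ)) - 1‖ ≤ w / 16 := by
        refine Real.norm_exp_I_mul_ofReal_sub_one_le.trans ?_
        rw [Real.norm_eq_abs, abs_mul, abs_of_pos hwpos, abs_sub_comm]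
        calc w * |φ - mid| ≤ w * (1 / 16) := mul_le_mul_of_nonneg_left δ hwpos.le
          _ = w / 16 := by ring
      rw [n1, mul_one]
      exact mul_le_mul_of_nonneg_left n2 (norm_nonneg _)
    -- at the middle
    have md : |(ζ * Complex.exp (-(((w * mid : ℝ) : ℂ) * Complex.I))).im| ≤
        |q * ((Ct c : ℝ) / 10 ^ 10) - p * ((St_ c : ℝ) / 10 ^ 10)| + 2 / 10 ^ 14 +
          (|p| + |q|) * (2 / 10 ^ 10) := by
      rw [im_exp]
      have mulb : ∀ a b A : ℝ, |b| ≤ A → |a * b| ≤ |a| * A := by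
        intro a b A h1
        rw [abs_mul]
        exact mul_le_mul_of_nonneg_left h1 (abs_nonneg _)
      have mulc : ∀ a b A : ℝ, |a| ≤ A → |b| ≤ 1 → |a * b| ≤ A := by
        intro a b A h1 h2
        rw [abs_mul]
        calc |a| * |b| ≤ A * 1 := mul_le_mul h1 h2 (abs_nonneg _) ((abs_nonneg _).trans h1)
          _ = A := mul_one A
      have s1 := mulc _ _ _ zr2 (Real.abs_cos_le_one (w * mid))
      have s2 := mulc _ _ _ zr1 (Real.abs_sin_le_one (w * mid))
      have s3 := mulb q _ _ cs1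
      have s4 := mulb p _ _ cs2
      have e : ζ.im * Real.cos (w * mid) - ζ.re * Real.sin (w * mid) =
          (q * ((Ct c : ℝ) / 10 ^ 10) - p * ((St_ c : ℝ) / 10 ^ 10)) +
          ((ζ.im - q) * Real.cos (w * mid) - (ζ.re - p) * Real.sin (w * mid) +
          q * (Real.cos (w * mid) - (Ct c : ℝ) / 10 ^ 10) -
          p * (Real.sin (w * mid) - (St_ c : ℝ) / 10 ^ 10)) := by ring
      rw [e]
      refine (abs_add_le _ _).trans ?_
      rw [add_assoc]
      refine add_le_add le_rfl ?_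
      rw [abs_le] at *
      constructor <;> linarith [s1.1, s1.2, s2.1, s2.2, s3.1, s3.2, s4.1, s4.2]
    -- numbers
    obtain ⟨n1, _, _, _⟩ := nz_chk d (by omega)
    have n1' : (0 : ℝ) ≤ nz d := by exact_mod_cast n1
    unfold dineq at k1
    have k2 : ((|(zI d : ℝ) * Ct c - zR d * St_ c| + 2 * 10 ^ 12 +
        2 * (|(zR d : ℝ)| + |(zI d : ℝ)|)) * 10 ^ 3 + ((nz d : ℝ) + 100) * 80379243246) * 1002 ≤
        900 * 128606789190 * 10 ^ 8 * (d : ℝ) * (drt c : ℝ) := by exact_mod_cast k1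
    have e5 : |q * ((Ct c : ℝ) / 10 ^ 10) - p * ((St_ c : ℝ) / 10 ^ 10)| =
        |(zI d : ℝ) * Ct c - zR d * St_ c| / 10 ^ 26 := by
      have e0 : |(zI d : ℝ) * Ct c - zR d * St_ c| / 10 ^ 26 =
          |((zI d : ℝ) * Ct c - zR d * St_ c) / 10 ^ 26| := by
        rw [abs_div, abs_of_pos (show (0 : ℝ) < 10 ^ 26 by positivity)]
      rw [e0]
      congr 1
      rw [hp, hq]
      ring
    have e6 : |p| + |q| = (|(zR d : ℝ)| + |(zI d : ℝ)|) / 10 ^ 16 := by
      rw [hp, hq, abs_div, abs_div, abs_of_pos (show (0 : ℝ) < 10 ^ 16 by positivity)]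
      ring
    rw [e5, e6] at md
    have wz : ‖ζ‖ * (w / 16) ≤ ((nz d : ℝ) / 10 ^ 16 + 1 / 10 ^ 14) * (80379243246 / 10 ^ 13) := by
      refine mul_le_mul zr3 ?_ (by positivity) (by positivity)
      rw [div_le_iff₀ (by norm_num)]
      refine hw1.trans ?_
      norm_num
    set I := |(ζ * Complex.exp (-((w : ℂ) * φ * Complex.I))).im| with hI
    have tot : I * 1002 * 10 ^ 29 ≤ 900 * 128606789190 * 10 ^ 8 * (d : ℝ) * (drt c : ℝ) := by
      refine le_trans ?_ k2
      have h7 : I ≤ |(zI d : ℝ) * Ct c - zR d * St_ c| / 10 ^ 26 + 2 / 10 ^ 14 +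
          (|(zR d : ℝ)| + |(zI d : ℝ)|) / 10 ^ 16 * (2 / 10 ^ 10) +
          ((nz d : ℝ) / 10 ^ 16 + 1 / 10 ^ 14) * (80379243246 / 10 ^ 13) := by linarith
      have h8 := mul_le_mul_of_nonneg_right h7 (show (0 : ℝ) ≤ 1002 * 10 ^ 29 by positivity)
      refine le_trans (le_of_eq (by ring)) (h8.trans (le_of_eq ?_))
      ring
    rw [div_le_iff₀ (by positivity)]
    have h9 : (0 : ℝ) ≤ (d : ℝ) * (drt c : ℝ) := by positivity
    have h10 : 900 * 128606789190 * 10 ^ 8 * (d : ℝ) * (drt c : ℝ) ≤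
        900 * w * 10 ^ 20 * ((d : ℝ) * (drt c : ℝ)) := by
      have : (900 : ℝ) * 128606789190 * 10 ^ 8 ≤ 900 * w * 10 ^ 20 := by
        have : (128606789190 : ℝ) * 10 ^ 8 ≤ w * 10 ^ 20 := by
          calc (128606789190 : ℝ) * 10 ^ 8 = 0.12860678919 * 10 ^ 20 := by norm_num
            _ ≤ w * 10 ^ 20 := mul_le_mul_of_nonneg_right hw0 (by positivity)
        linarith
      calc 900 * 128606789190 * 10 ^ 8 * (d : ℝ) * (drt c : ℝ) =
          (900 * 128606789190 * 10 ^ 8) * ((d : ℝ) * (drt c : ℝ)) := by ring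
        _ ≤ _ := mul_le_mul_of_nonneg_right this h9
    have h11 := tot.trans h10
    have e7 : I * 1.002 = (I * 1002 * 10 ^ 29) / 10 ^ 32 := by ring
    have e8 : (d : ℝ) * ((drt c : ℝ) / 10 ^ 9) * (0.9 * w) =
        (900 * w * 10 ^ 20 * ((d : ℝ) * (drt c : ℝ))) / 10 ^ 32 := by ring
    rw [e7, e8]
    exact div_le_div_of_nonneg_right h11 (by positivity)
  · -- norms
    intro d hd1 hd2
    obtain ⟨zr1, zr2, zr3⟩ := zr d hd1 hd2
    obtain ⟨_, _, _, n4⟩ := nz_chk d (by omega)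
    have n5 : 10004 * (nz d + 100) ≤ zm d * 10 ^ 6 := n4.resolve_right (by omega)
    have n6 : (10004 : ℝ) * ((nz d : ℝ) + 100) ≤ (zm d : ℝ) * 10 ^ 6 := by exact_mod_cast n5
    rw [le_div_iff₀ (by positivity)]
    have h1 := mul_le_mul_of_nonneg_left zr3 (show (0 : ℝ) ≤ 1.0004 * 10 ^ 14 by positivity)
    have e : 1.0004 * 10 ^ 14 * ((nz d : ℝ) / 10 ^ 16 + 1 / 10 ^ 14) =
        (10004 * ((nz d : ℝ) + 100)) / 10 ^ 6 := by ring
    rw [e] at h1
    have h2 : (10004 * ((nz d : ℝ) + 100)) / 10 ^ 6 ≤ (zm d : ℝ) := by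
      rw [div_le_iff₀ (by positivity)]
      exact n6
    linarith

end SA.H48
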