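import Pool.Agent.Helper48_SA.Sort

/-! Squad SA, modules BARGE, EBD, CSTEP, WPOS (helper48). -/

namespace SA.H48

open Filter Topology SA

/-- A2b -/
theorem barge : BarGeStmt := by
  intro T n x h
  set s := gr T n with hs
  change x ≤ s.B
  have hc : cst T n = s.E + ∑ j ∈ Finset.range 56, s.Q j := rfl
  rw [hc] at h
  refine Finset.le_inf' _ _ fun k hk => ?_
  have hk' : k < 56 := Finset.mem_range.mp hk
  rw [le_div_iff₀ (pos56 hk')]
  have h1 : ∑ j ∈ Finset.range k, (s.Q j - x) ≤ ∑ j ∈ Finset.range 56, max (s.Q j - x) 0 := by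
    calc ∑ j ∈ Finset.range k, (s.Q j - x) ≤ ∑ j ∈ Finset.range k, max (s.Q j - x) 0 :=
          Finset.sum_le_sum fun j _ => le_max_left _ _
      _ ≤ _ := by
          apply Finset.sum_le_sum_of_subset_of_nonneg
          · exact Finset.range_subset_range.mpr hk'.le
          · intro j _ _
            exact le_max_right _ _
  rw [Finset.sum_sub_distrib, Finset.sum_const, Finset.card_range, nsmul_eq_mul] at h1
  have h2 := Finset.sum_range_add_sum_Ico (fun j => s.Q j) (show k ≤ 56 by omega)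
  linarith

theorem abel_sum (f : ℕ → ℝ) (N : ℕ) : ∑ j ∈ Finset.range (N + 1), (f 0 - f j) =
    ∑ d ∈ Finset.Icc (1 : ℕ) N, ((N : ℝ) + 1 - (d : ℝ)) * (f (d - 1) - f d) := by
  induction N with
  | zero => simp
  | succ N ih =>
    rw [Finset.sum_range_succ, ih, Finset.sum_Icc_succ_top (by omega)]
    have tel : ∑ d ∈ Finset.Icc (1 : ℕ) N, (f (d - 1) - f d) = f 0 - f N := by
      clear ih
      induction N with
      | zero => simp
      | succ N ih =>
        rw [Finset.sum_Icc_succ_top (by omega), ih]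
        simp
    have e1 : ∑ d ∈ Finset.Icc (1 : ℕ) N, (((N + 1 : ℕ) : ℝ) + 1 - (d : ℝ)) * (f (d - 1) - f d) =
        ∑ d ∈ Finset.Icc (1 : ℕ) N, ((N : ℝ) + 1 - (d : ℝ)) * (f (d - 1) - f d) + (f 0 - f N) := by
      rw [← tel, ← Finset.sum_add_distrib]
      refine Finset.sum_congr rfl fun d _ => ?_
      push_cast
      ring
    rw [e1]
    push_cast
    ring

/-- A13 -/
theorem ebd (hS : SortStmt) (hB : BarStmt) : EbdStmt := by
  intro T n _ hV
  obtain ⟨hmono, hnn, hz, _⟩ := hS T n
  obtain ⟨h1, _, _⟩ := hB T n (hV n le_rfl)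
  rw [← h1]
  have e : ∑ d ∈ Finset.Icc (1 : ℕ) 55, (56 - (d : ℝ)) * Nd T n d =
      ∑ j ∈ Finset.range 56, ((gr T n).Q 0 - (gr T n).Q j) := by
    rw [abel_sum (fun j => (gr T n).Q j) 55]
    refine Finset.sum_congr rfl fun d _ => ?_
    unfold Nd
    norm_num
  have e2 : (56 : ℝ) * max (Bn T n - (gr T n).Q 0) 0 =
      ∑ _j ∈ Finset.range 56, max (Bn T n - (gr T n).Q 0) 0 := by
    rw [Finset.sum_const, Finset.card_range, nsmul_eq_mul]
    norm_num
  rw [e, e2, ← Finset.sum_add_distrib]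
  refine Finset.sum_le_sum fun j hj => ?_
  have hj' := hmono 0 j (Nat.zero_le _) (Finset.mem_range.mp hj)
  refine max_le ?_ ?_
  · have := le_max_left (Bn T n - (gr T n).Q 0) 0
    linarith
  · have := le_max_right (Bn T n - (gr T n).Q 0) 0
    linarith

theorem ins_sum (hS : SortStmt) (T : ℝ) (n : ℕ) : ∀ N, N < 56 →
    ∑ j ∈ Finset.range (N + 1), (gr T (n + 1)).Q j + min ((gr T n).Q N) (gr T n).B =
    ∑ j ∈ Finset.range (N + 1), (gr T n).Q j + (gr T n).B := by
  intro N
  induction N with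
  | zero =>
    intro _
    rw [Finset.sum_range_one, Finset.sum_range_one, next_Q0, max_add_min]
  | succ N ih =>
    intro hN
    have h := ih (by omega)
    rw [Finset.sum_range_succ, Finset.sum_range_succ _ (N + 1), next_Qs T n N hN]
    have hs := (hS T n).1 N (N + 1) (by omega) hN
    have key : max ((gr T n).Q (N + 1)) (min ((gr T n).Q N) (gr T n).B) +
        min ((gr T n).Q (N + 1)) (gr T n).B = (gr T n).Q (N + 1) +
          min ((gr T n).Q N) (gr T n).B := by
      rcases le_total ((gr T n).Q (N + 1)) (gr T n).B with h1 | h1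
      · rw [min_eq_left h1, max_eq_right (le_min hs h1)]
        ring
      · rw [min_eq_right h1, min_eq_right (h1.trans hs), max_eq_left h1]
    linarith

/-- A5 -/
theorem cstep (hS : SortStmt) : CstepStmt := by
  intro T n hV
  have hV' : (gr T n).Q 55 ≤ (gr T n).B := hV
  have h := ins_sum hS T n 55 (by norm_num)
  rw [min_eq_left hV'] at h
  have hR : (gr T (n + 1)).R = (gr T n).R - (Bn T n - (gr T n).Q 55) := by
    unfold St.R Bn
    norm_num at h
    linarith
  have hE : (gr T (n + 1)).E = (gr T n).E - (gr T (n + 1)).R / T := rfl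
  refine ⟨hR, hE, ?_⟩
  unfold cst
  have hR' : (gr T (n + 1)).R = 56 - ∑ j ∈ Finset.range 56, (gr T (n + 1)).Q j := rfl
  have hR'' : (gr T n).R = 56 - ∑ j ∈ Finset.range 56, (gr T n).Q j := rfl
  rw [hE]
  linarith

/-- A12 -/
theorem wpos (hS : SortStmt) (hB : BarStmt) : WposStmt := by
  intro T m hm hV
  by_cases hc : Bn T m ≤ (gr T m).Q 0
  · exact le_trans (by linarith) (le_max_right _ _)
  · push Not at hc
    refine le_trans ?_ (le_max_left _ _)
    obtain ⟨k, rfl⟩ : ∃ k, m = k + 1 := ⟨m - 1, by omega⟩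
    have h1 := (hB T (k + 1) (hV _ le_rfl)).2.2
    have h0 := (hB T k (hV _ (by omega))).2.2
    obtain ⟨hmono1, _, _, _⟩ := hS T (k + 1)
    obtain ⟨hmono0, _, _, _⟩ := hS T k
    have hD1 : Dn T (k + 1) = 0 := by
      unfold Dn
      refine Finset.sum_eq_zero fun j hj => ?_
      have := hmono1 0 j (Nat.zero_le _) (Finset.mem_range.mp hj)
      have hc' : (gr T (k + 1)).Q 0 < (gr T (k + 1)).B := hc
      exact max_eq_right (by linarith)
    have hq : (gr T (k + 1)).Q 0 = max ((gr T k).Q 0) (gr T k).B := next_Q0 T k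
    have hD0 : Dn T k ≤ 56 * ((gr T (k + 1)).Q 0 - Bn T k) := by
      unfold Dn
      have : (56 : ℝ) * ((gr T (k + 1)).Q 0 - Bn T k) =
          ∑ _j ∈ Finset.range 56, ((gr T (k + 1)).Q 0 - Bn T k) := by
        rw [Finset.sum_const, Finset.card_range, nsmul_eq_mul]
        norm_num
      rw [this]
      refine Finset.sum_le_sum fun j hj => ?_
      have h2 := hmono0 0 j (Nat.zero_le _) (Finset.mem_range.mp hj)
      have h3 : (gr T k).Q 0 ≤ (gr T (k + 1)).Q 0 := by rw [hq]; exact le_max_left _ _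
      have h4 : (gr T k).B ≤ (gr T (k + 1)).Q 0 := by rw [hq]; exact le_max_right _ _
      refine max_le ?_ ?_
      · change (gr T k).Q j - (gr T k).B ≤ (gr T (k + 1)).Q 0 - (gr T k).B
        linarith
      · change 0 ≤ (gr T (k + 1)).Q 0 - (gr T k).B
        linarith
    unfold Wn
    rw [Nat.add_sub_cancel, le_div_iff₀ (by norm_num)]
    linarith

end SA.H48
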