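import Pool.Agent.Helper88_SA.StmtA

/-! Squad SA, modules SORT and BAR (helper48). -/

namespace SA.H48

open Filter Topology SA

theorem next_Q0 (T : ℝ) (n : ℕ) : (gr T (n + 1)).Q 0 = max ((gr T n).Q 0) (gr T n).B := rfl

theorem next_Qs (T : ℝ) (n j : ℕ) (hj : j + 1 < 56) :
    (gr T (n + 1)).Q (j + 1) = max ((gr T n).Q (j + 1)) (min ((gr T n).Q j) (gr T n).B) := by
  change (gr T n).ins (j + 1) = _
  unfold St.ins
  rw [if_neg (by omega), if_pos hj]
  rfl

theorem next_Qz (T : ℝ) (n j : ℕ) (hj : 56 ≤ j) : (gr T (n + 1)).Q j = 0 := by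
  change (gr T n).ins j = 0
  unfold St.ins
  rw [if_neg (by omega), if_neg (by omega)]

/-- A1 -/
theorem sort : SortStmt := by
  intro T n
  have key : (∀ j, j + 1 < 56 → (gr T n).Q (j + 1) ≤ (gr T n).Q j) ∧ (∀ j, 0 ≤ (gr T n).Q j) ∧
      (∀ j, 56 ≤ j → (gr T n).Q j = 0) := by
    induction n with
    | zero => exact ⟨fun _ _ => le_rfl, fun _ => le_rfl, fun _ _ => rfl⟩
    | succ n ih =>
      obtain ⟨h1, h2, h3⟩ := ih
      have hup : ∀ j, j + 1 < 56 → (gr T (n + 1)).Q (j + 1) ≤ (gr T n).Q j := by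
        intro j hj
        rw [next_Qs T n j hj]
        exact max_le (h1 j hj) (min_le_left _ _)
      have hlo : ∀ j, j < 56 → (gr T n).Q j ≤ (gr T (n + 1)).Q j := by
        intro j hj
        rcases Nat.eq_zero_or_pos j with rfl | h0
        · rw [next_Q0]; exact le_max_left _ _
        · obtain ⟨j, rfl⟩ : ∃ i, j = i + 1 := ⟨j - 1, by omega⟩
          rw [next_Qs T n j hj]; exact le_max_left _ _
      refine ⟨fun j hj => (hup j hj).trans (hlo j (by omega)), fun j => ?_,
        fun j hj => next_Qz T n j hj⟩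
      by_cases hj : j < 56
      · exact (h2 j).trans (hlo j hj)
      · rw [next_Qz T n j (by omega)]
  obtain ⟨h1, h2, h3⟩ := key
  refine ⟨?_, h2, h3, ?_⟩
  · intro i j hij hj
    induction j, hij using Nat.le_induction with
    | base => exact le_rfl
    | succ j hij ih => exact (h1 j hj).trans (ih (by omega))
  · intro j hj
    rcases Nat.eq_zero_or_pos j with rfl | h0
    · rw [next_Q0]; exact le_max_left _ _
    · obtain ⟨j, rfl⟩ : ∃ i, j = i + 1 := ⟨j - 1, by omega⟩
      rw [next_Qs T n j hj]; exact le_max_left _ _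

/-- the barrier is below each of the quotients -/
theorem B_le (s : St) (k : ℕ) (hk : k < 56) :
    s.B ≤ (s.E + ∑ j ∈ Finset.Ico k 56, s.Q j) / (56 - (k : ℝ)) :=
  Finset.inf'_le (f := fun k : ℕ => (s.E + ∑ j ∈ Finset.Ico k 56, s.Q j) / (56 - (k : ℝ)))
    (Finset.mem_range.mpr hk)

theorem B_att (s : St) : ∃ k < 56,
    s.B = (s.E + ∑ j ∈ Finset.Ico k 56, s.Q j) / (56 - (k : ℝ)) := by
  obtain ⟨k, hk, h⟩ := Finset.exists_mem_eq_inf' (⟨0, by simp⟩ : (Finset.range 56).Nonempty)
    (fun k : ℕ => (s.E + ∑ j ∈ Finset.Ico k 56, s.Q j) / (56 - (k : ℝ)))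
  exact ⟨k, Finset.mem_range.mp hk, h⟩

theorem pos56 {k : ℕ} (hk : k < 56) : (0 : ℝ) < 56 - (k : ℝ) := by
  have : (k : ℝ) < 56 := by exact_mod_cast hk
  linarith

theorem sum_Ico_sub (s : St) (k : ℕ) (hk : k < 56) (x : ℝ) :
    ∑ j ∈ Finset.Ico k 56, (x - s.Q j) = (56 - (k : ℝ)) * x - ∑ j ∈ Finset.Ico k 56, s.Q j := by
  rw [Finset.sum_sub_distrib, Finset.sum_const, Nat.card_Ico, nsmul_eq_mul,
    Nat.cast_sub hk.le]
  norm_num

/-- A2 -/
theorem bar (hS : SortStmt) : BarStmt := by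
  intro T n hV
  obtain ⟨hmono, hnn, hz, _⟩ := hS T n
  set s := gr T n with hs
  have hB : Bn T n = s.B := rfl
  have hV' : s.Q 55 ≤ s.B := hV
  -- lower bound
  have lo : s.E ≤ ∑ j ∈ Finset.range 56, max (s.B - s.Q j) 0 := by
    obtain ⟨k, hk, h⟩ := B_att s
    have h1 : (56 - (k : ℝ)) * s.B = s.E + ∑ j ∈ Finset.Ico k 56, s.Q j := by
      rw [h, mul_div_cancel₀ _ (pos56 hk).ne']
    have h2 : s.E = ∑ j ∈ Finset.Ico k 56, (s.B - s.Q j) := by
      rw [sum_Ico_sub s k hk, h1]; ring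
    rw [h2]
    calc ∑ j ∈ Finset.Ico k 56, (s.B - s.Q j) ≤ ∑ j ∈ Finset.Ico k 56, max (s.B - s.Q j) 0 :=
          Finset.sum_le_sum fun j _ => le_max_left _ _
      _ ≤ ∑ j ∈ Finset.range 56, max (s.B - s.Q j) 0 := by
          apply Finset.sum_le_sum_of_subset_of_nonneg
          · intro j hj
            rw [Finset.mem_Ico] at hj
            exact Finset.mem_range.mpr hj.2
          · intro j _ _
            exact le_max_right _ _
  -- upper bound
  have up : ∑ j ∈ Finset.range 56, max (s.B - s.Q j) 0 ≤ s.E := by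
    classical
    have hex : ∃ k, s.Q k ≤ s.B := ⟨55, hV'⟩
    set k := Nat.find hex with hk
    have hkle : k ≤ 55 := Nat.find_min' hex hV'
    have hk1 : s.Q k ≤ s.B := Nat.find_spec hex
    have hk2 : ∀ j < k, s.B < s.Q j := fun j hj => not_le.mp (Nat.find_min hex hj)
    have e1 : ∑ j ∈ Finset.range 56, max (s.B - s.Q j) 0 =
        ∑ j ∈ Finset.Ico k 56, (s.B - s.Q j) := by
      rw [← Finset.sum_range_add_sum_Ico _ (show k ≤ 56 by omega)]
      have z1 : ∑ j ∈ Finset.range k, max (s.B - s.Q j) 0 = 0 :=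
        Finset.sum_eq_zero fun j hj => by
          have := hk2 j (Finset.mem_range.mp hj)
          exact max_eq_right (by linarith)
      rw [z1, zero_add]
      refine Finset.sum_congr rfl fun j hj => ?_
      rw [Finset.mem_Ico] at hj
      have := hmono k j hj.1 hj.2
      exact max_eq_left (by linarith)
    rw [e1, sum_Ico_sub s k (by omega)]
    have h3 := B_le s k (by omega)
    rw [le_div_iff₀ (pos56 (by omega))] at h3
    linarith
  have h0 : ∑ j ∈ Finset.range 56, max (s.B - s.Q j) 0 = s.E := le_antisymm up lo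
  refine ⟨h0, ?_, ?_⟩
  · rw [← h0]
    exact Finset.sum_nonneg fun j _ => le_max_right _ _
  · have hD : Dn T n = ∑ j ∈ Finset.range 56, max (s.Q j - s.B) 0 := rfl
    have hc : cst T n = s.E + ∑ j ∈ Finset.range 56, s.Q j := rfl
    rw [hB, hD, hc, ← h0]
    have e2 : ∀ j ∈ Finset.range 56, max (s.B - s.Q j) 0 + s.Q j = s.B + max (s.Q j - s.B) 0 := by
      intro j _
      rcases le_total (s.Q j) s.B with h | h
      · rw [max_eq_left (by linarith), max_eq_right (by linarith)]; ring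
      · rw [max_eq_right (by linarith), max_eq_left (by linarith)]; ring
    rw [← Finset.sum_add_distrib, Finset.sum_congr rfl e2, Finset.sum_add_distrib,
      Finset.sum_const, Finset.card_range, nsmul_eq_mul]
    norm_num

end SA.H48
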